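import Mathlib

/-!
# A unistable convex polyhedron whose resting face is its face of least diameter

The polyhedron `P` is a long prism-like body with `23` faces. Its cross-sections perpendicular to
the vertical axis (the coordinate of index `1`) are rectangles with half-sides `wf y` and `Lf y`,
where `wf`, `Lf` are concave and piecewise linear. The function `wf` describes a spiral-like
polygon with 19 sides as in Guy's truncated prism, the slanted ends `|z| ≤ 7801 - 100 y` move the
centre of mass down, and the two very flat additional planes `|z| ≤ 1 + 77900 y` cut the bottom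
face down to the rectangle `|x| ≤ 17, |z| ≤ 1` without making `P` stable on any other face.
-/

set_option autoImplicit false
set_option linter.unusedSectionVars false

namespace Pool.Agent.Results.MP_5eb3ac_co.SmallRestingFace

open MeasureTheory Set
open scoped RealInnerProductSpace

/-- Euclidean three-space. -/
abbrev E3 := EuclideanSpace ℝ (Fin 3)

/-- A convex polyhedron: a compact subset of `ℝ³` with nonempty interior which is the
intersection of finitely many closed half-spaces. -/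
def IsConvexPolyhedron (P : Set E3) : Prop :=
  IsCompact P ∧ (interior P).Nonempty ∧
    ∃ s : Finset (E3 × ℝ), P = {x | ∀ h ∈ s, ⟪h.1, x⟫ ≤ h.2}

/-- `F` is a (2-dimensional) face of `P`: the intersection of `P` with a supporting plane,
of affine dimension two. -/
def IsFace (P F : Set E3) : Prop :=
  (∃ (u : E3) (b : ℝ), u ≠ 0 ∧ (∀ x ∈ P, ⟪u, x⟫ ≤ b) ∧ F = {x | x ∈ P ∧ ⟪u, x⟫ = b}) ∧
    Module.finrank ℝ (vectorSpan ℝ F) = 2

/-- The centre of mass of `P` (uniform density). -/
noncomputable def centroid (P : Set E3) : E3 := ⨍ x in P, x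

/-- `P` is stable on `F` : the orthogonal projection `p` of the centre of mass to the
affine plane spanned by `F` lies in the relative interior of `F`. -/
def StableOn (P F : Set E3) : Prop :=
  ∃ p ∈ intrinsicInterior ℝ F, ∀ x ∈ F, ⟪centroid P - p, x - p⟫ = 0

section general

variable {ι : Type} [Fintype ι] [Nonempty ι] (u : ι → E3) (b : ι → ℝ)

/-- The intersection of half-spaces. -/
def HP : Set E3 := {x | ∀ i, ⟪u i, x⟫ ≤ b i}

/-- The part of `HP` where the inequality with index `i` is tight. -/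
def HF (i : ι) : Set E3 := {x | x ∈ HP u b ∧ ⟪u i, x⟫ = b i}

lemma convex_HP : Convex ℝ (HP u b) := by
  have : HP u b = ⋂ i, {x : E3 | ⟪u i, x⟫ ≤ b i} := by
    ext x; simp [HP]
  rw [this]
  refine convex_iInter fun i => ?_
  exact convex_halfSpace_le (innerₛₗ ℝ (u i)).isLinear (b i)

lemma finrank_orth (v : E3) (hv : v ≠ 0) : Module.finrank ℝ (Submodule.span ℝ {v})ᗮ = 2 := by
  have : Fact (Module.finrank ℝ E3 = 2 + 1) := ⟨by simp⟩
  exact Submodule.finrank_orthogonal_span_singleton hv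

lemma vectorSpan_le (v : E3) (β : ℝ) (F : Set E3) (h : ∀ x ∈ F, ⟪v, x⟫ = β) :
    vectorSpan ℝ F ≤ (Submodule.span ℝ {v})ᗮ := by
  rw [vectorSpan_def, Submodule.span_le]
  rintro w ⟨x, hx, y, hy, rfl⟩
  rw [SetLike.mem_coe, Submodule.mem_orthogonal_singleton_iff_inner_right]
  change ⟪v, x - y⟫ = 0
  rw [inner_sub_right, h x hx, h y hy, sub_self]

lemma face_eq (hu : ∀ i, u i ≠ 0) (F : Set E3) (hF : IsFace (HP u b) F) :
    ∃ i, F = HF u b i ∧ vectorSpan ℝ F = (Submodule.span ℝ {u i})ᗮ := by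
  obtain ⟨⟨v, β, hv, hle, hFeq⟩, hrank⟩ := hF
  have hne : F.Nonempty := by
    by_contra hcon
    rw [Set.not_nonempty_iff_eq_empty] at hcon
    rw [hcon, vectorSpan_empty] at hrank
    simp at hrank
  have hconv : Convex ℝ F := by
    have : F = HP u b ∩ {x | ⟪v, x⟫ = β} := by
      rw [hFeq]; rfl
    rw [this]
    exact (convex_HP u b).inter (convex_hyperplane (innerₛₗ ℝ v).isLinear β)
  have hFP : ∀ x ∈ F, x ∈ HP u b := by
    intro x hx
    rw [hFeq] at hx
    exact hx.1
  have hFv : ∀ x ∈ F, ⟪v, x⟫ = β := by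
    intro x hx
    rw [hFeq] at hx
    exact hx.2
  have hex : ∃ i, ∀ x ∈ F, ⟪u i, x⟫ = b i := by
    by_contra hcon
    push Not at hcon
    choose f hf hfne using hcon
    have hlt : ∀ i, ⟪u i, f i⟫ < b i := fun i => lt_of_le_of_ne (hFP _ (hf i) i) (hfne i)
    set N : ℝ := (Fintype.card ι : ℝ) with hN
    have hNpos : 0 < N := by
      rw [hN]; exact_mod_cast Fintype.card_pos
    set x : E3 := ∑ i, (1 / N) • f i with hx
    have hxF : x ∈ F := by
      apply hconv.sum_mem
      · intro i _; positivity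
      · rw [Finset.sum_const, Finset.card_univ, nsmul_eq_mul, ← hN]
        field_simp
      · intro i _; exact hf i
    have hstrict : ∀ j, ⟪u j, x⟫ < b j := by
      intro j
      rw [hx, inner_sum]
      have h1 : b j = ∑ i : ι, (1 / N) * b j := by
        rw [Finset.sum_const, Finset.card_univ, nsmul_eq_mul, ← hN]
        field_simp
      rw [h1]
      apply Finset.sum_lt_sum
      · intro i _
        rw [inner_smul_right]
        exact mul_le_mul_of_nonneg_left (hFP _ (hf i) j) (by positivity)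
      · refine ⟨j, Finset.mem_univ _, ?_⟩
        rw [inner_smul_right]
        exact mul_lt_mul_of_pos_left (hlt j) (by positivity)
    -- move slightly in direction `v`
    have hopen : IsOpen {y : E3 | ∀ j, ⟪u j, y⟫ < b j} := by
      have : {y : E3 | ∀ j, ⟪u j, y⟫ < b j} = ⋂ j, {y : E3 | ⟪u j, y⟫ < b j} := by
        ext y; simp
      rw [this]
      refine isOpen_iInter_of_finite fun j => ?_
      exact isOpen_lt (by fun_prop) continuous_const
    rw [Metric.isOpen_iff] at hopen
    obtain ⟨ε, hε, hball⟩ := hopen x hstrict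
    have hvn : 0 < ‖v‖ := norm_pos_iff.mpr hv
    have h2 : x + (ε / (2 * ‖v‖)) • v ∈ Metric.ball x ε := by
      rw [Metric.mem_ball, dist_eq_norm, add_sub_cancel_left, norm_smul, Real.norm_eq_abs,
        abs_of_pos (by positivity)]
      field_simp
      linarith
    have h3 := hball h2
    have h4 : x + (ε / (2 * ‖v‖)) • v ∈ HP u b := fun j => (h3 j).le
    have h5 := hle _ h4
    rw [inner_add_right, hFv x hxF, inner_smul_right, real_inner_self_eq_norm_sq] at h5
    have : 0 < ε / (2 * ‖v‖) * ‖v‖ ^ 2 := by positivity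
    linarith
  obtain ⟨i, hi⟩ := hex
  have e1 : vectorSpan ℝ F = (Submodule.span ℝ {u i})ᗮ := by
    apply Submodule.eq_of_le_of_finrank_eq (vectorSpan_le (u i) (b i) F hi)
    rw [hrank, finrank_orth _ (hu i)]
  have e2 : vectorSpan ℝ F = (Submodule.span ℝ {v})ᗮ := by
    apply Submodule.eq_of_le_of_finrank_eq (vectorSpan_le v β F hFv)
    rw [hrank, finrank_orth _ hv]
  refine ⟨i, ?_, e1⟩
  apply Set.Subset.antisymm
  · intro x hx
    exact ⟨hFP x hx, hi x hx⟩
  · rintro x ⟨hx1, hx2⟩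
    obtain ⟨y, hy⟩ := hne
    rw [hFeq]
    refine ⟨hx1, ?_⟩
    have h1 : x - y ∈ (Submodule.span ℝ {u i})ᗮ := by
      rw [Submodule.mem_orthogonal_singleton_iff_inner_right, inner_sub_right, hx2, hi y hy,
        sub_self]
    rw [← e1, e2, Submodule.mem_orthogonal_singleton_iff_inner_right, inner_sub_right,
      hFv y hy] at h1
    linarith

lemma foot_of_stable (i : ι) (hvs : vectorSpan ℝ (HF u b i) = (Submodule.span ℝ {u i})ᗮ)
    (hst : StableOn (HP u b) (HF u b i)) :
    ∃ t : ℝ, (∀ j, ⟪u j, centroid (HP u b) + t • u i⟫ ≤ b j) ∧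
      ⟪u i, centroid (HP u b) + t • u i⟫ = b i := by
  obtain ⟨p, hp, hperp⟩ := hst
  have hpF : p ∈ HF u b i := intrinsicInterior_subset hp
  have h1 : centroid (HP u b) - p ∈ (vectorSpan ℝ (HF u b i))ᗮ := by
    rw [vectorSpan_eq_span_vsub_set_right ℝ hpF, Submodule.mem_orthogonal]
    intro w hw
    induction hw using Submodule.span_induction with
    | mem w hw =>
      obtain ⟨x, hx, rfl⟩ := hw
      simp only [vsub_eq_sub]
      rw [real_inner_comm]
      exact hperp x hx
    | zero => simp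
    | add w1 w2 _ _ h1 h2 => rw [inner_add_left, h1, h2, add_zero]
    | smul a w _ h => rw [inner_smul_left, h, mul_zero]
  rw [hvs, Submodule.orthogonal_orthogonal, Submodule.mem_span_singleton] at h1
  obtain ⟨s, hs⟩ := h1
  refine ⟨-s, ?_⟩
  have : centroid (HP u b) + (-s) • u i = p := by
    rw [neg_smul, hs]
    abel
  rw [this]
  exact ⟨hpF.1, hpF.2⟩

lemma face_of_strict (i : ι) (hu : u i ≠ 0) (p : E3) (hp : ⟪u i, p⟫ = b i)
    (hs : ∀ j, j ≠ i → ⟪u j, p⟫ < b j) :
    IsFace (HP u b) (HF u b i) ∧ p ∈ intrinsicInterior ℝ (HF u b i) := by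
  classical
  have hopen : IsOpen {y : E3 | ∀ j, j ≠ i → ⟪u j, y⟫ < b j} := by
    have : {y : E3 | ∀ j, j ≠ i → ⟪u j, y⟫ < b j} = ⋂ j, {y : E3 | j ≠ i → ⟪u j, y⟫ < b j} := by
      ext y; simp
    rw [this]
    refine isOpen_iInter_of_finite fun j => ?_
    by_cases hj : j = i
    · subst hj
      simp
    · have : {y : E3 | j ≠ i → ⟪u j, y⟫ < b j} = {y : E3 | ⟪u j, y⟫ < b j} := by
        ext y; simp [hj]
      rw [this]
      exact isOpen_lt (by fun_prop) continuous_const
  rw [Metric.isOpen_iff] at hopen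
  obtain ⟨r, hr, hball⟩ := hopen p hs
  have hnear : ∀ y : E3, dist y p < r → ⟪u i, y⟫ = b i → y ∈ HF u b i := by
    intro y hy hy2
    refine ⟨fun j => ?_, hy2⟩
    by_cases hj : j = i
    · subst hj; exact hy2.le
    · exact (hball (Metric.mem_ball.mpr hy) j hj).le
  have hpF : p ∈ HF u b i := hnear p (by simpa using hr) hp
  have hle : vectorSpan ℝ (HF u b i) ≤ (Submodule.span ℝ {u i})ᗮ :=
    vectorSpan_le (u i) (b i) _ (fun x hx => hx.2)
  have hge : (Submodule.span ℝ {u i})ᗮ ≤ vectorSpan ℝ (HF u b i) := by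
    intro w hw
    rw [Submodule.mem_orthogonal_singleton_iff_inner_right] at hw
    by_cases hw0 : w = 0
    · rw [hw0]; exact Submodule.zero_mem _
    · have hwn : 0 < ‖w‖ := norm_pos_iff.mpr hw0
      have h1 : p + (r / (2 * ‖w‖)) • w ∈ HF u b i := by
        apply hnear
        · rw [dist_eq_norm, add_sub_cancel_left, norm_smul, Real.norm_eq_abs,
            abs_of_pos (by positivity)]
          field_simp
          linarith
        · rw [inner_add_right, inner_smul_right, hw, mul_zero, add_zero, hp]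
      have h2 : (r / (2 * ‖w‖)) • w ∈ vectorSpan ℝ (HF u b i) := by
        have := vsub_mem_vectorSpan ℝ h1 hpF
        rwa [vsub_eq_sub, add_sub_cancel_left] at this
      have h3 := Submodule.smul_mem _ ((r / (2 * ‖w‖))⁻¹) h2
      rwa [smul_smul, inv_mul_cancel₀ (by positivity), one_smul] at h3
  have hvs : vectorSpan ℝ (HF u b i) = (Submodule.span ℝ {u i})ᗮ := le_antisymm hle hge
  refine ⟨⟨⟨u i, b i, hu, fun x hx => hx i, rfl⟩, ?_⟩, ?_⟩
  · rw [hvs, finrank_orth _ hu]
  · rw [mem_intrinsicInterior]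
    have hpa : p ∈ affineSpan ℝ (HF u b i) := subset_affineSpan ℝ _ hpF
    refine ⟨⟨p, hpa⟩, ?_, rfl⟩
    rw [mem_interior_iff_mem_nhds, Metric.mem_nhds_iff]
    refine ⟨r, hr, ?_⟩
    rintro ⟨q, hq⟩ hqr
    rw [Metric.mem_ball] at hqr
    rw [Set.mem_preimage]
    apply hnear
    · exact hqr
    · have h1 : q -ᵥ p ∈ (affineSpan ℝ (HF u b i)).direction :=
        AffineSubspace.vsub_mem_direction hq hpa
      rw [direction_affineSpan, hvs, Submodule.mem_orthogonal_singleton_iff_inner_right,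
        vsub_eq_sub, inner_sub_right] at h1
      change ⟪u i, q⟫ = b i
      linarith

end general


/-! ### The polyhedron -/

/-- The integer normals. -/
def nrm : Fin 23 → Fin 3 → ℤ :=
  ![![0, -1, 0],
    ![8, 18, 0], ![3, 4, 0], ![11, 8, 0], ![3, 1, 0], ![8, 1, 0], ![9, -1, 0], ![11, -5, 0],
    ![1, -1, 0], ![4, -7, 0],
    ![-8, 18, 0], ![-3, 4, 0], ![-11, 8, 0], ![-3, 1, 0], ![-8, 1, 0], ![-9, -1, 0],
    ![-11, -5, 0], ![-1, -1, 0], ![-4, -7, 0],
    ![0, 100, 1], ![0, 100, -1],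
    ![0, -77900, 1], ![0, -77900, -1]]

/-- The integer right-hand sides. -/
def rhs : Fin 23 → ℤ :=
  ![0, 1404, 334, 798, 155, 345, 318, 298, 20, 68, 1404, 334, 798, 155, 345, 318, 298, 20, 68,
    7801, 7801, 1, 1]

/-- For each face other than the bottom one, an inequality which the foot of the centroid violates. -/
def wit : Fin 23 → Fin 23 :=
  ![0, 2, 3, 4, 5, 6, 7, 8, 9, 0, 11, 12, 13, 14, 15, 16, 17, 18, 0, 1, 1, 0, 0]

/-- The integer scalar product. -/
def dot (a b : Fin 3 → ℤ) : ℤ := a 0 * b 0 + a 1 * b 1 + a 2 * b 2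

lemma wit_ok : ∀ i : Fin 23, i ≠ 0 →
    0 < dot (nrm i) (nrm i) * (0 - rhs (wit i)) + rhs i * dot (nrm (wit i)) (nrm i) ∧
    0 ≤ dot (nrm i) (nrm i) * (nrm (wit i) 1 * 28 - rhs (wit i)) +
      (rhs i - nrm i 1 * 28) * dot (nrm (wit i)) (nrm i) := by
  decide

/-- The polyhedron. -/
def P : Set E3 :=
  {x | ∀ i : Fin 23, (nrm i 0 : ℝ) * x 0 + (nrm i 1 : ℝ) * x 1 + (nrm i 2 : ℝ) * x 2 ≤ rhs i}

/-- Half-width at height `y`. -/
noncomputable def wf (y : ℝ) : ℝ :=
  min ((1404 - 18 * y) / 8) (min ((334 - 4 * y) / 3) (min ((798 - 8 * y) / 11)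
  (min ((155 - y) / 3) (min ((345 - y) / 8) (min ((318 + y) / 9) (min ((298 + 5 * y) / 11)
  (min (20 + y) ((68 + 7 * y) / 4))))))))

/-- Half-length at height `y`. -/
noncomputable def Lf (y : ℝ) : ℝ := min (7801 - 100 * y) (1 + 77900 * y)

lemma mem_P_iff (x : E3) : x ∈ P ↔ 0 ≤ x 1 ∧ |x 0| ≤ wf (x 1) ∧ |x 2| ≤ Lf (x 1) := by
  simp only [P, nrm, rhs, Fin.forall_fin_succ, Set.mem_ofPred_eq, wf, Lf, le_min_iff, abs_le]
  simp
  intro h0
  constructor
  · rintro ⟨h1, h2, h3, h4, h5, h6, h7, h8, h9, h10, h11, h12, h13, h14, h15, h16, h17, h18,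
      h19, h20, h21, h22⟩
    refine ⟨⟨⟨?_, ?_⟩, ⟨?_, ?_⟩, ⟨?_, ?_⟩, ⟨?_, ?_⟩, ⟨?_, ?_⟩, ⟨?_, ?_⟩, ⟨?_, ?_⟩, ⟨?_, ?_⟩, ?_, ?_⟩,
      ⟨?_, ?_⟩, ?_, ?_⟩ <;> linarith
  · rintro ⟨⟨⟨h1, h2⟩, ⟨h3, h4⟩, ⟨h5, h6⟩, ⟨h7, h8⟩, ⟨h9, h10⟩, ⟨h11, h12⟩, ⟨h13, h14⟩,
      ⟨h15, h16⟩, h17, h18⟩, ⟨h19, h20⟩, h21, h22⟩
    refine ⟨?_, ?_, ?_, ?_, ?_, ?_, ?_, ?_, ?_, ?_, ?_, ?_, ?_, ?_, ?_, ?_, ?_, ?_, ?_, ?_,
      ?_, ?_⟩ <;> linarith

lemma wf_nonneg {y : ℝ} (h0 : 0 ≤ y) (h1 : y ≤ 78) : 0 ≤ wf y := by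
  simp only [wf, le_min_iff]
  refine ⟨?_, ?_, ?_, ?_, ?_, ?_, ?_, ?_, ?_⟩ <;> linarith

lemma Lf_nonneg {y : ℝ} (h0 : 0 ≤ y) (h1 : y ≤ 78) : 0 ≤ Lf y := by
  simp only [Lf, le_min_iff]
  constructor <;> linarith

lemma wf_neg {y : ℝ} (h1 : 78 < y) : wf y < 0 := by
  have : wf y ≤ (1404 - 18 * y) / 8 := min_le_left _ _
  linarith

lemma continuous_wf : Continuous wf := by
  unfold wf
  fun_prop

lemma continuous_Lf : Continuous Lf := by
  unfold Lf
  fun_prop

lemma isClosed_P : IsClosed P := by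
  have : P = ⋂ i : Fin 23, {x : E3 | (nrm i 0 : ℝ) * x 0 + (nrm i 1 : ℝ) * x 1 +
      (nrm i 2 : ℝ) * x 2 ≤ rhs i} := by
    ext x
    simp [P]
  rw [this]
  refine isClosed_iInter fun i => isClosed_le ?_ continuous_const
  fun_prop

lemma isCompact_P : IsCompact P := by
  refine Metric.isCompact_of_isClosed_isBounded isClosed_P ?_
  rw [Metric.isBounded_iff_subset_closedBall 0] 
  refine ⟨10000, fun x hx => ?_⟩
  rw [mem_P_iff] at hx
  obtain ⟨h0, h1, h2⟩ := hx
  have h3 : x 1 ≤ 78 := by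
    by_contra hcon
    push Not at hcon
    have := wf_neg hcon
    have := abs_nonneg (x 0)
    linarith
  have h4 : |x 0| ≤ 100 := by
    have : wf (x 1) ≤ (345 - x 1) / 8 := by
      simp only [wf, min_le_iff]
      simp
    linarith
  have h5 : |x 2| ≤ 7801 := by
    have : Lf (x 1) ≤ 7801 - 100 * x 1 := min_le_left _ _
    linarith
  rw [Metric.mem_closedBall, dist_zero_right, EuclideanSpace.norm_eq]
  rw [Real.sqrt_le_left (by norm_num)]
  rw [Fin.sum_univ_three]
  simp only [Real.norm_eq_abs, sq_abs]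
  have e0 : (x 0) ^ 2 ≤ 100 ^ 2 := sq_le_sq' (by linarith [abs_le.mp h4]) (by linarith [abs_le.mp h4])
  have e1 : (x 1) ^ 2 ≤ 78 ^ 2 := by nlinarith
  have e2 : (x 2) ^ 2 ≤ 7801 ^ 2 := sq_le_sq' (by linarith [abs_le.mp h5]) (by linarith [abs_le.mp h5])
  linarith

/-- The equivalence of `E3` with `ℝ × (Fin 2 → ℝ)` separating the coordinate of index `1`. -/
noncomputable def eqv : E3 ≃ᵐ ℝ × (Fin 2 → ℝ) :=
  (MeasurableEquiv.toLp 2 (Fin 3 → ℝ)).symm.trans
    (MeasurableEquiv.piFinSuccAbove (fun _ : Fin 3 => ℝ) 1)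

lemma eqv_mp : MeasurePreserving eqv volume volume := by
  have h1 := EuclideanSpace.volume_preserving_symm_measurableEquiv_toLp (Fin 3)
  have h2 := volume_preserving_piFinSuccAbove (fun _ : Fin 3 => ℝ) 1
  exact h2.comp h1

lemma eqv_fst (x : E3) : (eqv x).1 = x 1 := rfl
lemma eqv_snd0 (x : E3) : (eqv x).2 0 = x 0 := rfl
lemma eqv_snd1 (x : E3) : (eqv x).2 1 = x 2 := rfl

/-- The integral over `P` of a function of the height. -/
lemma moment (g : ℝ → ℝ) (hg : Continuous g) :
    ∫ x in P, g (x 1) = ∫ y in (0 : ℝ)..78, g y * (4 * wf y * Lf y) := by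
  classical
  set S : Set (ℝ × (Fin 2 → ℝ)) := {q | 0 ≤ q.1 ∧ |q.2 0| ≤ wf q.1 ∧ |q.2 1| ≤ Lf q.1} with hS
  have hSm : MeasurableSet S := by
    apply IsClosed.measurableSet
    have hS' : S = {q : ℝ × (Fin 2 → ℝ) | 0 ≤ q.1} ∩ ({q : ℝ × (Fin 2 → ℝ) | |q.2 0| ≤ wf q.1} ∩
        {q : ℝ × (Fin 2 → ℝ) | |q.2 1| ≤ Lf q.1}) := rfl
    rw [hS']
    refine (isClosed_le continuous_const continuous_fst).inter
      ((isClosed_le ?_ ?_).inter (isClosed_le ?_ ?_))
    · fun_prop
    · exact continuous_wf.comp continuous_fst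
    · fun_prop
    · exact continuous_Lf.comp continuous_fst
  have hPS : P = eqv ⁻¹' S := by
    ext x
    rw [mem_P_iff]
    rfl
  have hint : IntegrableOn (fun x : E3 => g (x 1)) P volume := by
    apply ContinuousOn.integrableOn_compact isCompact_P
    apply Continuous.continuousOn
    fun_prop
  have h1 : ∫ x in P, g (x 1) = ∫ q in S, g q.1 := by
    rw [hPS]
    exact eqv_mp.setIntegral_preimage_emb eqv.measurableEmbedding (fun q => g q.1) S
  have hint2 : IntegrableOn (fun q : ℝ × (Fin 2 → ℝ) => g q.1) S volume := by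
    have := (eqv_mp.integrableOn_comp_preimage eqv.measurableEmbedding
      (f := fun q : ℝ × (Fin 2 → ℝ) => g q.1) (s := S))
    rw [← this, ← hPS]
    exact hint
  rw [h1, ← integral_indicator hSm]
  rw [← integrable_indicator_iff hSm] at hint2
  rw [Measure.volume_eq_prod] at hint2 ⊢
  rw [integral_prod _ hint2]
  rw [intervalIntegral.integral_of_le (by norm_num), ← integral_Icc_eq_integral_Ioc,
    ← integral_indicator measurableSet_Icc]
  congr 1
  ext y
  by_cases hy : y ∈ Icc (0 : ℝ) 78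
  · rw [indicator_of_mem hy]
    have hw := wf_nonneg hy.1 hy.2
    have hL := Lf_nonneg hy.1 hy.2
    have h2 : (fun v : Fin 2 → ℝ => S.indicator (fun q => g q.1) (y, v)) =
        (Icc ![-wf y, -Lf y] ![wf y, Lf y]).indicator (fun _ => g y) := by
      ext v
      have : (y, v) ∈ S ↔ v ∈ Icc ![-wf y, -Lf y] ![wf y, Lf y] := by
        rw [hS, Set.mem_ofPred_eq, mem_Icc, Pi.le_def, Pi.le_def]
        simp only [Fin.forall_fin_two, abs_le]
        simp
        have := hy.1
        tauto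
      by_cases hv : (y, v) ∈ S
      · rw [indicator_of_mem hv, indicator_of_mem (this.mp hv)]
      · rw [indicator_of_notMem hv, indicator_of_notMem (fun h => hv (this.mpr h))]
    rw [h2, integral_indicator measurableSet_Icc, setIntegral_const, smul_eq_mul]
    rw [measureReal_def, Real.volume_Icc_pi_toReal]
    · simp [Fin.prod_univ_two]
      ring
    · rw [Pi.le_def]
      simp only [Fin.forall_fin_two]
      simp
      constructor <;> linarith
  · rw [indicator_of_notMem hy]
    have h2 : (fun v : Fin 2 → ℝ => S.indicator (fun q => g q.1) (y, v)) = fun _ => 0 := by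
      ext v
      apply indicator_of_notMem
      intro hv
      apply hy
      obtain ⟨h3, h4, h5⟩ := hv
      simp only at h3 h4 h5
      refine ⟨h3, ?_⟩
      by_contra hcon
      push Not at hcon
      have := wf_neg hcon
      have := abs_nonneg (v 0)
      linarith
    rw [h2]
    simp

/-- An antiderivative. -/
noncomputable def G (p q y : ℝ) : ℝ :=
  4 * (-218428 * p * y + (10601 * p - 218428 * q) * y ^ 2 / 2 +
    (-100 * p + 10601 * q) * y ^ 3 / 3 - 100 * q * y ^ 4 / 4)

lemma hasDerivAt_G (p q y : ℝ) :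
    HasDerivAt (G p q) ((y - 28) * (4 * (p + q * y) * (7801 - 100 * y))) y := by
  have h1 : HasDerivAt (G p q)
    (4 * (-218428 * p * 1 + (10601 * p - 218428 * q) * (((2 : ℕ) : ℝ) * y ^ (2 - 1) * 1) / 2 +
    (-100 * p + 10601 * q) * (((3 : ℕ) : ℝ) * y ^ (3 - 1) * 1) / 3 -
      100 * q * (((4 : ℕ) : ℝ) * y ^ (4 - 1) * 1) / 4)) y :=
    (((((hasDerivAt_id y).const_mul _).add ((((hasDerivAt_id y).pow 2).const_mul _).div_const _)).add
      ((((hasDerivAt_id y).pow 3).const_mul _).div_const _)).sub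
      ((((hasDerivAt_id y).pow 4).const_mul _).div_const _)).const_mul 4
  convert h1 using 1
  push_cast
  ring

lemma piece (a b p q : ℝ) (hab : a ≤ b) (hw : ∀ y ∈ Icc a b, wf y = p + q * y)
    (hL : ∀ y ∈ Icc a b, Lf y = 7801 - 100 * y) :
    ∫ y in a..b, (y - 28) * (4 * wf y * Lf y) = G p q b - G p q a := by
  have h1 : ∫ y in a..b, (y - 28) * (4 * wf y * Lf y) =
      ∫ y in a..b, (y - 28) * (4 * (p + q * y) * (7801 - 100 * y)) := by
    apply intervalIntegral.integral_congr
    intro y hy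
    rw [uIcc_of_le hab] at hy
    simp only
    rw [hw y hy, hL y hy]
  rw [h1]
  apply intervalIntegral.integral_eq_sub_of_hasDerivAt
  · intro y _
    exact hasDerivAt_G p q y
  · apply Continuous.intervalIntegrable
    fun_prop

lemma Lf_eq {y : ℝ} (h : 1 / 10 ≤ y) : Lf y = 7801 - 100 * y := by
  unfold Lf
  rw [min_eq_left]
  linarith

lemma moment_neg : ∫ y in (0 : ℝ)..78, (y - 28) * (4 * wf y * Lf y) < 0 := by
  have hc : Continuous (fun y : ℝ => (y - 28) * (4 * wf y * Lf y)) := by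
    have := continuous_wf
    have := continuous_Lf
    fun_prop
  have hi : ∀ a b : ℝ, IntervalIntegrable (fun y : ℝ => (y - 28) * (4 * wf y * Lf y)) volume a b :=
    fun a b => hc.intervalIntegrable a b
  have h0 : ∫ y in (0 : ℝ)..(1 / 10), (y - 28) * (4 * wf y * Lf y) ≤ 0 := by
    have h00 : 0 ≤ ∫ y in (0 : ℝ)..(1 / 10), -((y - 28) * (4 * wf y * Lf y)) := by
      apply intervalIntegral.integral_nonneg (by norm_num)
      intro y hy
      have h1 := wf_nonneg hy.1 (by linarith [hy.2])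
      have h2 := Lf_nonneg hy.1 (by linarith [hy.2])
      have h3 : 0 ≤ 4 * wf y * Lf y := by positivity
      have := mul_nonpos_of_nonpos_of_nonneg (show y - 28 ≤ 0 by linarith [hy.2]) h3
      linarith
    rw [intervalIntegral.integral_neg] at h00
    linarith
  have h1 := piece (1 / 10) 4 17 (7 / 4) (by norm_num) (by
    intro y hy
    obtain ⟨ha, hb⟩ := hy
    unfold wf
    apply le_antisymm
    · simp only [min_le_iff]
      right; right; right; right; right; right; right; right; linarith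
    · simp only [le_min_iff]
      refine ⟨?_, ?_, ?_, ?_, ?_, ?_, ?_, ?_, ?_⟩ <;> linarith) (fun y hy => Lf_eq (by linarith [hy.1]))
  have h2 := piece 4 13 20 1 (by norm_num) (by
    intro y hy
    obtain ⟨ha, hb⟩ := hy
    unfold wf
    apply le_antisymm
    · simp only [min_le_iff]
      right; right; right; right; right; right; right; left; linarith
    · simp only [le_min_iff]
      refine ⟨?_, ?_, ?_, ?_, ?_, ?_, ?_, ?_, ?_⟩ <;> linarith) (fun y hy => Lf_eq (by linarith [hy.1]))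
  have h3 := piece 13 24 (298 / 11) (5 / 11) (by norm_num) (by
    intro y hy
    obtain ⟨ha, hb⟩ := hy
    unfold wf
    apply le_antisymm
    · simp only [min_le_iff]
      right; right; right; right; right; right; left; linarith
    · simp only [le_min_iff]
      refine ⟨?_, ?_, ?_, ?_, ?_, ?_, ?_, ?_, ?_⟩ <;> linarith) (fun y hy => Lf_eq (by linarith [hy.1]))
  have h4 := piece 24 33 (318 / 9) (1 / 9) (by norm_num) (by
    intro y hy
    obtain ⟨ha, hb⟩ := hy
    unfold wf
    apply le_antisymm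
    · simp only [min_le_iff]
      right; right; right; right; right; left; linarith
    · simp only [le_min_iff]
      refine ⟨?_, ?_, ?_, ?_, ?_, ?_, ?_, ?_, ?_⟩ <;> linarith) (fun y hy => Lf_eq (by linarith [hy.1]))
  have h5 := piece 33 41 (345 / 8) (-1 / 8) (by norm_num) (by
    intro y hy
    obtain ⟨ha, hb⟩ := hy
    unfold wf
    apply le_antisymm
    · simp only [min_le_iff]
      right; right; right; right; left; linarith
    · simp only [le_min_iff]
      refine ⟨?_, ?_, ?_, ?_, ?_, ?_, ?_, ?_, ?_⟩ <;> linarith) (fun y hy => Lf_eq (by linarith [hy.1]))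
  have h6 := piece 41 53 (155 / 3) (-1 / 3) (by norm_num) (by
    intro y hy
    obtain ⟨ha, hb⟩ := hy
    unfold wf
    apply le_antisymm
    · simp only [min_le_iff]
      right; right; right; left; linarith
    · simp only [le_min_iff]
      refine ⟨?_, ?_, ?_, ?_, ?_, ?_, ?_, ?_, ?_⟩ <;> linarith) (fun y hy => Lf_eq (by linarith [hy.1]))
  have h7 := piece 53 64 (798 / 11) (-8 / 11) (by norm_num) (by
    intro y hy
    obtain ⟨ha, hb⟩ := hy
    unfold wf
    apply le_antisymm
    · simp only [min_le_iff]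
      right; right; left; linarith
    · simp only [le_min_iff]
      refine ⟨?_, ?_, ?_, ?_, ?_, ?_, ?_, ?_, ?_⟩ <;> linarith) (fun y hy => Lf_eq (by linarith [hy.1]))
  have h8 := piece 64 70 (334 / 3) (-4 / 3) (by norm_num) (by
    intro y hy
    obtain ⟨ha, hb⟩ := hy
    unfold wf
    apply le_antisymm
    · simp only [min_le_iff]
      right; left; linarith
    · simp only [le_min_iff]
      refine ⟨?_, ?_, ?_, ?_, ?_, ?_, ?_, ?_, ?_⟩ <;> linarith) (fun y hy => Lf_eq (by linarith [hy.1]))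
  have h9 := piece 70 78 (1404 / 8) (-18 / 8) (by norm_num) (by
    intro y hy
    obtain ⟨ha, hb⟩ := hy
    unfold wf
    apply le_antisymm
    · simp only [min_le_iff]
      left; linarith
    · simp only [le_min_iff]
      refine ⟨?_, ?_, ?_, ?_, ?_, ?_, ?_, ?_, ?_⟩ <;> linarith) (fun y hy => Lf_eq (by linarith [hy.1]))
  rw [← intervalIntegral.integral_add_adjacent_intervals (hi 0 (1 / 10)) (hi (1 / 10) 78),
    ← intervalIntegral.integral_add_adjacent_intervals (hi (1 / 10) 4) (hi 4 78),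
    ← intervalIntegral.integral_add_adjacent_intervals (hi 4 13) (hi 13 78),
    ← intervalIntegral.integral_add_adjacent_intervals (hi 13 24) (hi 24 78),
    ← intervalIntegral.integral_add_adjacent_intervals (hi 24 33) (hi 33 78),
    ← intervalIntegral.integral_add_adjacent_intervals (hi 33 41) (hi 41 78),
    ← intervalIntegral.integral_add_adjacent_intervals (hi 41 53) (hi 53 78),
    ← intervalIntegral.integral_add_adjacent_intervals (hi 53 64) (hi 64 78),
    ← intervalIntegral.integral_add_adjacent_intervals (hi 64 70) (hi 70 78)]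
  rw [h1, h2, h3, h4, h5, h6, h7, h8, h9]
  have : G 17 (7 / 4) 4 - G 17 (7 / 4) (1 / 10) + (G 20 1 13 - G 20 1 4 +
    (G (298 / 11) (5 / 11) 24 - G (298 / 11) (5 / 11) 13 +
    (G (318 / 9) (1 / 9) 33 - G (318 / 9) (1 / 9) 24 +
    (G (345 / 8) (-1 / 8) 41 - G (345 / 8) (-1 / 8) 33 +
    (G (155 / 3) (-1 / 3) 53 - G (155 / 3) (-1 / 3) 41 +
    (G (798 / 11) (-8 / 11) 64 - G (798 / 11) (-8 / 11) 53 +
    (G (334 / 3) (-4 / 3) 70 - G (334 / 3) (-4 / 3) 64 +
    (G (1404 / 8) (-18 / 8) 78 - G (1404 / 8) (-18 / 8) 70)))))))) < 0 := by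
    unfold G
    norm_num
  linarith

lemma dot_pos : ∀ i : Fin 23, 0 < dot (nrm i) (nrm i) := by decide

/-- The normals as real vectors. -/
noncomputable def nv (i : Fin 23) : E3 := !₂[(nrm i 0 : ℝ), (nrm i 1 : ℝ), (nrm i 2 : ℝ)]

/-- The right-hand sides as real numbers. -/
noncomputable def bv (i : Fin 23) : ℝ := (rhs i : ℝ)

lemma inner_nv (i : Fin 23) (x : E3) :
    ⟪nv i, x⟫ = (nrm i 0 : ℝ) * x 0 + (nrm i 1 : ℝ) * x 1 + (nrm i 2 : ℝ) * x 2 := by
  rw [PiLp.inner_apply, Fin.sum_univ_three]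
  simp [nv]
  ring

lemma inner_nv_nv (i j : Fin 23) : ⟪nv i, nv j⟫ = (dot (nrm i) (nrm j) : ℝ) := by
  rw [inner_nv]
  simp [nv, dot]

lemma nv_ne (i : Fin 23) : nv i ≠ 0 := by
  intro h
  have h1 := inner_nv_nv i i
  rw [h, inner_zero_left] at h1
  have h2 : (0 : ℝ) < (dot (nrm i) (nrm i) : ℝ) := by exact_mod_cast dot_pos i
  linarith

lemma P_eq : P = HP nv bv := by
  ext x
  simp only [P, HP, Set.mem_ofPred_eq, inner_nv, bv]

/-! ### The centroid -/

lemma integrableOn_id : IntegrableOn (fun x : E3 => x) P volume :=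
  ContinuousOn.integrableOn_compact isCompact_P continuousOn_id

lemma integral_coord (j : Fin 3) : (∫ x in P, x) j = ∫ x in P, x j := by
  have := (EuclideanSpace.proj j : E3 →L[ℝ] ℝ).integral_comp_comm
    (μ := volume.restrict P) (φ := fun x : E3 => x) integrableOn_id
  simpa using this.symm

/-- The reflection changing the sign of the coordinate `j`. -/
noncomputable def refl (j : Fin 3) : E3 ≃ₗᵢ[ℝ] E3 :=
  LinearIsometryEquiv.piLpCongrRight 2
    (fun i => if i = j then LinearIsometryEquiv.neg ℝ else LinearIsometryEquiv.refl ℝ ℝ)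

lemma refl_apply (j i : Fin 3) (x : E3) : refl j x i = if i = j then - x i else x i := by
  unfold refl
  rw [LinearIsometryEquiv.piLpCongrRight_apply]
  by_cases h : i = j
  · simp [h]
  · simp [h]

lemma integral_zero (j : Fin 3) (hj : j ≠ 1) : ∫ x in P, x j = 0 := by
  have hpre : (refl j) ⁻¹' P = P := by
    ext x
    rw [Set.mem_preimage, mem_P_iff, mem_P_iff]
    have h1 : (refl j x) 1 = x 1 := by
      rw [refl_apply, if_neg (fun h => hj h.symm)]
    have h0 : |(refl j x) 0| = |x 0| := by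
      rw [refl_apply]
      split_ifs
      · rw [abs_neg]
      · rfl
    have h2 : |(refl j x) 2| = |x 2| := by
      rw [refl_apply]
      split_ifs
      · rw [abs_neg]
      · rfl
    rw [h1, h0, h2]
  have hmp : MeasurePreserving (refl j) volume volume := (refl j).measurePreserving
  have hemb : MeasurableEmbedding (refl j) := (refl j).toHomeomorph.measurableEmbedding
  have h := hmp.setIntegral_preimage_emb hemb (fun x : E3 => x j) P
  rw [hpre] at h
  have h2 : ∫ x in P, (refl j x) j = - ∫ x in P, x j := by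
    rw [← integral_neg]
    congr 1
    ext x
    rw [refl_apply, if_pos rfl]
  rw [h2] at h
  linarith

lemma interior_P_nonempty : (interior P).Nonempty := by
  have hopen : IsOpen {x : E3 | ∀ i : Fin 23, ⟪nv i, x⟫ < bv i} := by
    have : {x : E3 | ∀ i : Fin 23, ⟪nv i, x⟫ < bv i} = ⋂ i, {x : E3 | ⟪nv i, x⟫ < bv i} := by
      ext x; simp
    rw [this]
    refine isOpen_iInter_of_finite fun j => ?_
    exact isOpen_lt (by fun_prop) continuous_const
  refine ⟨!₂[(0 : ℝ), 28, 0], ?_⟩
  rw [mem_interior]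
  refine ⟨_, ?_, hopen, ?_⟩
  · intro x hx
    rw [P_eq]
    exact fun i => (hx i).le
  · intro i
    rw [inner_nv]
    simp only [bv]
    have key : ∀ i : Fin 23, nrm i 1 * 28 < rhs i := by decide
    have := key i
    have h2 : ((nrm i 1 : ℝ)) * 28 < (rhs i : ℝ) := by exact_mod_cast this
    simpa using h2

lemma volume_pos : 0 < volume.real P := by
  rw [measureReal_def, ENNReal.toReal_pos_iff]
  constructor
  · exact MeasureTheory.Measure.measure_pos_of_nonempty_interior volume interior_P_nonempty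
  · exact isCompact_P.measure_lt_top

lemma centroid_coord (j : Fin 3) : centroid P j = (volume.real P)⁻¹ * ∫ x in P, x j := by
  unfold centroid
  rw [setAverage_eq, PiLp.smul_apply, integral_coord, smul_eq_mul]

lemma centroid_zero (j : Fin 3) (hj : j ≠ 1) : centroid P j = 0 := by
  rw [centroid_coord, integral_zero j hj, mul_zero]

lemma centroid_one_nonneg : 0 ≤ centroid P 1 := by
  rw [centroid_coord]
  apply mul_nonneg (inv_nonneg.mpr volume_pos.le)
  apply setIntegral_nonneg isClosed_P.measurableSet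
  intro x hx
  exact ((mem_P_iff x).mp hx).1

lemma centroid_one_lt : centroid P 1 < 28 := by
  rw [centroid_coord]
  have h1 : ∫ x in P, (x 1 - 28) < 0 := by
    have := moment (fun y => y - 28) (by fun_prop)
    simp only at this
    rw [this]
    exact moment_neg
  have h2 : ∫ x in P, (x 1 - 28) = (∫ x in P, x 1) - volume.real P * 28 := by
    rw [integral_sub, setIntegral_const, smul_eq_mul]
    · exact (ContinuousOn.integrableOn_compact isCompact_P (by fun_prop))
    · exact (ContinuousOn.integrableOn_compact isCompact_P (by fun_prop))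
  rw [h2] at h1
  rw [inv_mul_lt_iff₀ volume_pos]
  linarith

/-! ### Stability -/

lemma not_stable (i : Fin 23) (hi : i ≠ 0)
    (hvs : vectorSpan ℝ (HF nv bv i) = (Submodule.span ℝ {nv i})ᗮ) :
    ¬ StableOn (HP nv bv) (HF nv bv i) := by
  intro hst
  obtain ⟨t, h1, h2⟩ := foot_of_stable nv bv i hvs hst
  rw [← P_eq] at h1 h2
  have h3 := h1 (wit i)
  rw [inner_add_right, inner_smul_right, inner_nv_nv, inner_nv, centroid_zero 0 (by decide),
    centroid_zero 2 (by decide)] at h2 h3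
  simp only [bv, mul_zero, zero_add, add_zero] at h2 h3
  obtain ⟨w1, w2⟩ := wit_ok i hi
  have w1' : (0 : ℝ) < dot (nrm i) (nrm i) * (0 - rhs (wit i)) +
      rhs i * dot (nrm (wit i)) (nrm i) := by exact_mod_cast w1
  have w2' : (0 : ℝ) ≤ dot (nrm i) (nrm i) * (nrm (wit i) 1 * 28 - rhs (wit i)) +
      (rhs i - nrm i 1 * 28) * dot (nrm (wit i)) (nrm i) := by exact_mod_cast w2
  have hD : (0 : ℝ) < (dot (nrm i) (nrm i) : ℝ) := by exact_mod_cast dot_pos i
  have c0 := centroid_one_nonneg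
  have c1 := centroid_one_lt
  set y := centroid P 1 with hy
  set D : ℝ := (dot (nrm i) (nrm i) : ℝ) with hDdef
  set d : ℝ := (dot (nrm (wit i)) (nrm i) : ℝ) with hd
  set B : ℝ := (rhs (wit i) : ℝ) with hB
  set b : ℝ := (rhs i : ℝ) with hb
  set m : ℝ := (nrm (wit i) 1 : ℝ) with hm
  set n : ℝ := (nrm i 1 : ℝ) with hn
  -- h2 : n * y + t * D = b, h3 : m * y + t * d ≤ B
  have e1 : D * (m * y + t * d) ≤ D * B := mul_le_mul_of_nonneg_left h3 hD.le
  have e2 : t * D = b - n * y := by linarith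
  have e3 : D * (m * y - B) + (b - n * y) * d ≤ 0 := by
    rw [← e2]; nlinarith
  -- convexity in y
  have e4 : 28 * (D * (m * y - B) + (b - n * y) * d) =
      (28 - y) * (D * (0 - B) + b * d) + y * (D * (m * 28 - B) + (b - n * 28) * d) := by ring
  have e5 : 0 < (28 - y) * (D * (0 - B) + b * d) := mul_pos (by linarith) w1'
  have e6 : 0 ≤ y * (D * (m * 28 - B) + (b - n * 28) * d) := mul_nonneg c0 w2'
  linarith

lemma bottom_ok : IsFace P (HF nv bv 0) ∧ StableOn P (HF nv bv 0) := by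
  have key := face_of_strict nv bv 0 (nv_ne 0) 0 (by
    rw [inner_zero_right]; simp [bv, rhs]) (by
    intro j hj
    rw [inner_zero_right]
    have key : ∀ j : Fin 23, j ≠ 0 → 0 < rhs j := by decide
    have := key j hj
    simp only [bv]
    exact_mod_cast this)
  rw [← P_eq] at key
  refine ⟨key.1, 0, key.2, ?_⟩
  intro x hx
  have h1 := hx.2
  rw [inner_nv] at h1
  simp [nrm, bv, rhs] at h1
  rw [sub_zero, sub_zero, PiLp.inner_apply, Fin.sum_univ_three, centroid_zero 0 (by decide),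
    centroid_zero 2 (by decide), h1]
  simp

/-! ### Diameters -/

/-- Points of the faces, multiplied by 100. -/
def pa : Fin 23 → Fin 3 → ℤ :=
  ![![0, 0, 0],
    ![1800, 7000, 10000], ![2600, 6400, 10000], ![3400, 5300, 10000], ![3800, 4100, 10000],
    ![3900, 3300, 10000], ![3800, 2400, 10000], ![3300, 1300, 10000], ![2400, 400, 10000],
    ![2400, 400, 10000],
    ![-1800, 7000, 10000], ![-2600, 6400, 10000], ![-3400, 5300, 10000], ![-3800, 4100, 10000],
    ![-3900, 3300, 10000], ![-3800, 2400, 10000], ![-3300, 1300, 10000], ![-2400, 400, 10000],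
    ![-2400, 400, 10000],
    ![0, 1000, 680100], ![0, 1000, -680100],
    ![0, 0, 100], ![0, 0, -100]]

/-- Other points of the faces, multiplied by 100. -/
def pb : Fin 23 → Fin 3 → ℤ :=
  ![![0, 0, 0],
    ![1800, 7000, -10000], ![2600, 6400, -10000], ![3400, 5300, -10000], ![3800, 4100, -10000],
    ![3900, 3300, -10000], ![3800, 2400, -10000], ![3300, 1300, -10000], ![2400, 400, -10000],
    ![2400, 400, -10000],
    ![-1800, 7000, -10000], ![-2600, 6400, -10000], ![-3400, 5300, -10000],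
    ![-3800, 4100, -10000],
    ![-3900, 3300, -10000], ![-3800, 2400, -10000], ![-3300, 1300, -10000], ![-2400, 400, -10000],
    ![-2400, 400, -10000],
    ![0, 2000, 580100], ![0, 2000, -580100],
    ![0, 1, 78000], ![0, 1, -78000]]

lemma pa_ok : ∀ i : Fin 23, i ≠ 0 → dot (nrm i) (pa i) = 100 * rhs i ∧
    ∀ j, dot (nrm j) (pa i) ≤ 100 * rhs j := by decide

lemma pb_ok : ∀ i : Fin 23, i ≠ 0 → dot (nrm i) (pb i) = 100 * rhs i ∧
    ∀ j, dot (nrm j) (pb i) ≤ 100 * rhs j := by decide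

lemma pab_ok : ∀ i : Fin 23, i ≠ 0 → 4000 ^ 2 < (pa i 0 - pb i 0) ^ 2 + (pa i 1 - pb i 1) ^ 2 +
    (pa i 2 - pb i 2) ^ 2 := by decide

/-- Integer points divided by 100. -/
noncomputable def pt (p : Fin 3 → ℤ) : E3 := !₂[(p 0 : ℝ) / 100, (p 1 : ℝ) / 100, (p 2 : ℝ) / 100]

lemma pt_mem (i : Fin 23) (p : Fin 3 → ℤ) (h : dot (nrm i) p = 100 * rhs i)
    (h' : ∀ j, dot (nrm j) p ≤ 100 * rhs j) : pt p ∈ HF nv bv i := by
  have e : ∀ j, ⟪nv j, pt p⟫ = (dot (nrm j) p : ℝ) / 100 := by
    intro j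
    rw [inner_nv]
    simp [pt, dot]
    ring
  refine ⟨fun j => ?_, ?_⟩
  · rw [e]
    have : (dot (nrm j) p : ℝ) ≤ 100 * (rhs j : ℝ) := by exact_mod_cast h' j
    simp only [bv]
    linarith
  · rw [e]
    have : (dot (nrm i) p : ℝ) = 100 * (rhs i : ℝ) := by exact_mod_cast h
    simp only [bv]
    linarith

lemma isBounded_P : Bornology.IsBounded P := isCompact_P.isBounded

lemma diam_large (i : Fin 23) (hi : i ≠ 0) : 40 < Metric.diam (HF nv bv i) := by
  obtain ⟨a1, a2⟩ := pa_ok i hi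
  obtain ⟨b1, b2⟩ := pb_ok i hi
  have ha := pt_mem i (pa i) a1 a2
  have hb := pt_mem i (pb i) b1 b2
  have hbd : Bornology.IsBounded (HF nv bv i) :=
    isBounded_P.subset (fun x hx => by rw [P_eq]; exact hx.1)
  refine lt_of_lt_of_le ?_ (Metric.dist_le_diam_of_mem hbd ha hb)
  rw [EuclideanSpace.dist_eq]
  apply Real.lt_sqrt_of_sq_lt
  rw [Fin.sum_univ_three]
  simp only [Real.dist_eq, sq_abs]
  have h := pab_ok i hi
  have h' : (4000 : ℝ) ^ 2 < ((pa i 0 : ℝ) - pb i 0) ^ 2 + ((pa i 1 : ℝ) - pb i 1) ^ 2 +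
    ((pa i 2 : ℝ) - pb i 2) ^ 2 := by exact_mod_cast h
  simp [pt]
  nlinarith

lemma diam_small : Metric.diam (HF nv bv 0) ≤ 36 := by
  apply Metric.diam_le_of_forall_dist_le (by norm_num)
  have key : ∀ x ∈ HF nv bv 0, |x 0| ≤ 17 ∧ x 1 = 0 ∧ |x 2| ≤ 1 := by
    intro x hx
    have h1 := hx.2
    rw [inner_nv] at h1
    simp [nrm, bv, rhs] at h1
    have h2 : x ∈ P := by rw [P_eq]; exact hx.1
    rw [mem_P_iff, h1] at h2
    obtain ⟨_, h3, h4⟩ := h2
    refine ⟨?_, h1, ?_⟩
    · have : wf 0 ≤ 17 := by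
        simp only [wf, min_le_iff]
        norm_num
      linarith
    · have : Lf 0 ≤ 1 := by
        simp only [Lf, min_le_iff]
        norm_num
      linarith
  intro x hx y hy
  obtain ⟨x0, x1, x2⟩ := key x hx
  obtain ⟨y0, y1, y2⟩ := key y hy
  rw [EuclideanSpace.dist_eq]
  rw [Real.sqrt_le_left (by norm_num)]
  rw [Fin.sum_univ_three]
  simp only [Real.dist_eq, sq_abs]
  rw [abs_le] at x0 x2 y0 y2
  rw [x1, y1]
  have e0 : (x 0 - y 0) ^ 2 ≤ 34 ^ 2 := sq_le_sq' (by linarith) (by linarith)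
  have e2 : (x 2 - y 2) ^ 2 ≤ 2 ^ 2 := sq_le_sq' (by linarith) (by linarith)
  nlinarith

/-- There is a unistable convex polyhedron of uniform density whose resting face is the unique
face of least diameter. -/
theorem result :
    ∃ P F₀ : Set E3, IsConvexPolyhedron P ∧ IsFace P F₀ ∧ StableOn P F₀ ∧
      (∀ F, IsFace P F → StableOn P F → F = F₀) ∧
      ∀ F, IsFace P F → F ≠ F₀ → Metric.diam F₀ < Metric.diam F := by
  classical
  refine ⟨P, HF nv bv 0, ⟨isCompact_P, interior_P_nonempty, ?_⟩, bottom_ok.1, bottom_ok.2, ?_, ?_⟩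
  · refine ⟨Finset.univ.image (fun i => (nv i, bv i)), ?_⟩
    rw [P_eq]
    ext x
    simp [HP]
  · intro F hF hst
    rw [P_eq] at hF hst
    obtain ⟨i, rfl, hvs⟩ := face_eq nv bv nv_ne F hF
    by_cases hi : i = 0
    · rw [hi]
    · exact absurd hst (not_stable i hi hvs)
  · intro F hF hne
    rw [P_eq] at hF
    obtain ⟨i, rfl, hvs⟩ := face_eq nv bv nv_ne F hF
    have hi : i ≠ 0 := by
      rintro rfl
      exact hne rfl
    have := diam_large i hi
    have := diam_small
    linarith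

end Pool.Agent.Results.MP_5eb3ac_co.SmallRestingFace
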